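import Pool.Agent.U33.SB.Sieve
import Pool.Agent.N142.CD.LCH

/-!
# Chang's theorem relative to a Fourier-uniform set `B`
-/

set_option autoImplicit false

open scoped Classical

namespace Pool.Agent.U33.SB

open Finset ComplexConjugate
open Pool.Agent.N142.CD Pool.Agent.N142.CD.LCH

variable {N : ℕ} [NeZero N]

theorem DD_univ (c : ZMod N) : DD (univ : Finset (ZMod N)) c ↔ c = 0 := by
  unfold DD
  have hNpos : (0 : ℝ) < N := by exact_mod_cast Nat.pos_of_ne_zero (NeZero.ne N)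
  have h : ∑ s : ZMod N, (ψ (c * s) : ℂ) = if c = 0 then (N : ℂ) else 0 := by
    rw [← ortho c]
    exact sum_congr rfl fun s _ => by rw [mul_comm]
  rw [h, card_univ, ZMod.card]
  constructor
  · intro h1
    by_contra h2
    rw [if_neg h2, norm_zero] at h1
    linarith
  · intro h1
    rw [if_pos h1, Complex.norm_natCast]
    linarith

theorem exp_le_gen {t y : ℝ} (ht : 0 ≤ t) (h1 : -1 ≤ y) (h2 : y ≤ 1) :
    Real.exp (t * y) ≤ Real.cosh t + Real.sinh t * y := by
  have h := convexOn_exp.2 (Set.mem_univ t) (Set.mem_univ (-t))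
    (show (0 : ℝ) ≤ (1 + y) / 2 by linarith) (show (0 : ℝ) ≤ (1 - y) / 2 by linarith) (by ring)
  simp only [smul_eq_mul] at h
  have e1 : (1 + y) / 2 * t + (1 - y) / 2 * (-t) = t * y := by ring
  rw [e1] at h
  refine h.trans (le_of_eq ?_)
  rw [Real.cosh_eq, Real.sinh_eq]
  ring

theorem chang_card (A B Λ : Finset (ZMod N)) (hAB : A ⊆ B) (hA : A.Nonempty) (ρ τ : ℝ) (hρ : 0 < ρ)
    (hτ : 0 ≤ τ) (hu0 : ∀ c : ZMod N, c ≠ 0 → ‖FF B c‖ ≤ τ)
    (hSp : ∀ z ∈ Λ, ρ * A.card ≤ ‖FF A z‖) (hΛ : Dis univ Λ)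
    (hm : Real.exp (ρ * Λ.card) * τ ≤ B.card) :
    Real.exp (ρ ^ 2 * Λ.card / 2) * A.card ≤ 2 * B.card := by
  have hAc : (0 : ℝ) < A.card := by exact_mod_cast hA.card_pos
  have hBc : (0 : ℝ) < B.card := by exact_mod_cast (hA.mono hAB).card_pos
  set u : ZMod N → ℂ := fun z => conj (FF A z) / ‖FF A z‖ with hu
  have hu1 : ∀ z, ‖u z‖ ≤ 1 := by
    intro z
    rw [hu]
    simp only
    rw [norm_div, RCLike.norm_conj]
    simp only [Complex.norm_real, norm_norm]
    exact div_self_le_one _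
  have huh : ∀ z ∈ Λ, u z * FF A z = ‖FF A z‖ := by
    intro z hz
    have h0 : (0 : ℝ) < ‖FF A z‖ := lt_of_lt_of_le (by positivity) (hSp z hz)
    have h1 : (‖FF A z‖ : ℂ) ≠ 0 := by exact_mod_cast h0.ne'
    rw [hu]
    simp only
    rw [div_mul_eq_mul_div, div_eq_iff h1, mul_comm, Complex.mul_conj, Complex.normSq_eq_norm_sq]
    push_cast
    ring
  set Xf : ZMod N → ℝ := fun x => ∑ z ∈ Λ, (u z * ψ (z * x)).re with hXf
  have hsum : (Λ.card : ℝ) * (ρ * A.card) ≤ ∑ x ∈ A, Xf x := by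
    rw [hXf]
    simp only
    rw [sum_comm, ← nsmul_eq_mul, ← sum_const]
    refine sum_le_sum fun z hz => ?_
    have h1 : ∑ x ∈ A, (u z * ψ (z * x)).re = (u z * FF A z).re := by
      unfold FF
      rw [mul_sum, Complex.re_sum]
    rw [h1, huh z hz, Complex.ofReal_re]
    exact hSp z hz
  set c : ℝ := Real.cosh ρ with hc
  set s : ℝ := Real.sinh ρ with hs
  have hc0 : 0 ≤ c := (Real.cosh_pos _).le
  have hs0 : 0 ≤ s := Real.sinh_nonneg_iff.2 hρ.le
  have hcs : c + s = Real.exp ρ := Real.cosh_add_sinh _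
  have hre : ∀ z x, |(u z * ψ (z * x)).re| ≤ 1 := by
    intro z x
    refine (Complex.abs_re_le_norm _).trans ?_
    rw [norm_mul, norm_psi, mul_one]
    exact hu1 z
  have hlow : Real.exp (ρ ^ 2 * Λ.card) * A.card ≤ ∑ x ∈ A, Real.exp (ρ * Xf x) := by
    have h1 : ∀ x ∈ A, Real.exp (ρ ^ 2 * Λ.card) * (1 + (ρ * Xf x - ρ ^ 2 * Λ.card)) ≤
        Real.exp (ρ * Xf x) := by
      intro x _
      have h2 := Real.add_one_le_exp (ρ * Xf x - ρ ^ 2 * Λ.card)
      have h3 : Real.exp (ρ * Xf x) =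
          Real.exp (ρ ^ 2 * Λ.card) * Real.exp (ρ * Xf x - ρ ^ 2 * Λ.card) := by
        rw [← Real.exp_add]; congr 1; ring
      rw [h3]
      refine mul_le_mul_of_nonneg_left (by linarith) (Real.exp_pos _).le
    refine le_trans ?_ (sum_le_sum h1)
    rw [← mul_sum]
    refine mul_le_mul_of_nonneg_left ?_ (Real.exp_pos _).le
    rw [sum_add_distrib, sum_sub_distrib, sum_const, sum_const, ← mul_sum, nsmul_eq_mul,
      nsmul_eq_mul]
    nlinarith [mul_le_mul_of_nonneg_left hsum hρ.le]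
  obtain ⟨P, hP⟩ : ∃ P : ZMod N → ℝ, P = fun x => ∏ z ∈ Λ, (c + s * (u z * ψ (z * x)).re) :=
    ⟨_, rfl⟩
  have hprod : ∀ x : ZMod N, Real.exp (ρ * Xf x) ≤ P x := by
    intro x
    rw [hXf, hP]
    simp only
    rw [mul_sum, Real.exp_sum]
    refine prod_le_prod (fun z _ => (Real.exp_pos _).le) fun z _ => ?_
    have h1 := abs_le.1 (hre z x)
    exact exp_le_gen hρ.le h1.1 h1.2
  have hP0 : ∀ x, 0 ≤ P x := fun x => (Real.exp_pos _).le.trans (hprod x)
  have hAB' : ∑ x ∈ A, Real.exp (ρ * Xf x) ≤ ∑ x ∈ B, P x :=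
    (sum_le_sum fun x _ => hprod x).trans
      (sum_le_sum_of_subset_of_nonneg hAB fun y _ _ => hP0 _)
  have hB : ∀ d : ZMod N, ¬ DD univ d → ‖∑ j ∈ B, (ψ (d * j) : ℂ)‖ ≤ τ := by
    intro d hd
    rw [DD_univ] at hd
    exact hu0 d hd
  have hup : ∑ x ∈ B, P x ≤ B.card * c ^ Λ.card + Real.exp ρ ^ Λ.card * τ := by
    have h2 := SS_dis univ B (fun j => j) (c : ℂ) (fun z => (s / 2 : ℂ) * u z)
      (fun z => (s / 2 : ℂ) * conj (u z)) hτ hc0 hs0
      (by rw [Complex.norm_real, Real.norm_of_nonneg hc0])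
      (fun z => by
        rw [norm_mul]
        have e : ‖(s / 2 : ℂ)‖ = s / 2 := by
          rw [show (s / 2 : ℂ) = ((s / 2 : ℝ) : ℂ) by push_cast; rfl, Complex.norm_real,
            Real.norm_of_nonneg (by positivity)]
        rw [e]
        have := hu1 z
        nlinarith)
      (fun z => by
        rw [norm_mul, RCLike.norm_conj]
        have e : ‖(s / 2 : ℂ)‖ = s / 2 := by
          rw [show (s / 2 : ℂ) = ((s / 2 : ℝ) : ℂ) by push_cast; rfl, Complex.norm_real,
            Real.norm_of_nonneg (by positivity)]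
        rw [e]
        have := hu1 z
        nlinarith) hB Λ hΛ
    rw [hcs] at h2
    refine le_trans ?_ h2
    have h3 : ((∑ j ∈ B, P j : ℝ) : ℂ) =
        SS B (fun j => j) (c : ℂ) (fun z => (s / 2 : ℂ) * u z)
          (fun z => (s / 2 : ℂ) * conj (u z)) 0 Λ := by
      unfold SS
      rw [Complex.ofReal_sum]
      refine sum_congr rfl fun j _ => ?_
      rw [zero_mul, psi_zero, one_mul, hP, Complex.ofReal_prod]
      refine prod_congr rfl fun z _ => ?_
      rw [psi_neg, Complex.ofReal_add, Complex.ofReal_mul]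
      have h6 : (((u z * ψ (z * j)).re : ℝ) : ℂ) =
          (u z * ψ (z * j) + conj (u z * ψ (z * j))) / 2 :=
        Complex.re_eq_add_conj _
      rw [h6, map_mul]
      ring
    rw [← h3, Complex.norm_real]
    exact le_abs_self _
  have hc1 : c ^ Λ.card ≤ Real.exp (ρ ^ 2 * Λ.card / 2) := by
    refine (pow_le_pow_left₀ hc0 (Real.cosh_le_exp_half_sq ρ) _).trans (le_of_eq ?_)
    rw [← Real.exp_nat_mul]
    congr 1
    ring
  have he1 : (1 : ℝ) ≤ Real.exp (ρ ^ 2 * Λ.card / 2) := Real.one_le_exp (by positivity)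
  have he2 : Real.exp ρ ^ Λ.card * τ ≤ B.card := by
    rw [← Real.exp_nat_mul, mul_comm]
    rw [mul_comm] at hm
    convert hm using 3
    ring
  have h9 : Real.exp (ρ ^ 2 * Λ.card) * A.card ≤ 2 * B.card * Real.exp (ρ ^ 2 * Λ.card / 2) := by
    refine hlow.trans (hAB'.trans (hup.trans ?_))
    have := mul_le_mul_of_nonneg_left hc1 hBc.le
    nlinarith
  have h2 : Real.exp (ρ ^ 2 * Λ.card) =
      Real.exp (ρ ^ 2 * Λ.card / 2) * Real.exp (ρ ^ 2 * Λ.card / 2) := by
    rw [← Real.exp_add]; congr 1; ring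
  rw [h2] at h9
  have h3 := Real.exp_pos (ρ ^ 2 * Λ.card / 2)
  have h4 : Real.exp (ρ ^ 2 * Λ.card / 2) * (Real.exp (ρ ^ 2 * Λ.card / 2) * A.card) ≤
      Real.exp (ρ ^ 2 * Λ.card / 2) * (2 * B.card) := by nlinarith
  exact le_of_mul_le_mul_left h4 h3

/-- A spanning set of the spectrum. -/
theorem cover (Sp : Finset (ZMod N)) : ∃ Λ : Finset (ZMod N), Λ ⊆ Sp ∧ Dis univ Λ ∧
    ∀ γ ∈ Sp, ∃ e : ZMod N → ℤ, (∀ z, e z = 0 ∨ e z = 1 ∨ e z = -1) ∧ γ = ∑ z ∈ Λ, (e z : ZMod N) * z := by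
  have hne : (Sp.powerset.filter fun Λ => Dis univ Λ).Nonempty := by
    refine ⟨∅, ?_⟩
    rw [mem_filter]
    exact ⟨empty_mem_powerset _, fun e _ _ z hz => absurd hz (notMem_empty z)⟩
  obtain ⟨Λ, hΛ, hmax⟩ := exists_max_image _ card hne
  rw [mem_filter, mem_powerset] at hΛ
  refine ⟨Λ, hΛ.1, hΛ.2, fun γ hγ => ?_⟩
  by_cases hg : γ ∈ Λ
  · refine ⟨fun z => if z = γ then 1 else 0, fun z => ?_, ?_⟩
    · by_cases h : z = γ
      · exact Or.inr (Or.inl (if_pos h))
      · exact Or.inl (if_neg h)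
    · rw [sum_eq_single γ]
      · simp
      · intro z _ hz
        simp [hz]
      · intro h
        exact absurd hg h
  · have h1 : ¬ Dis univ (insert γ Λ) := by
      intro hd
      have h2 := hmax (insert γ Λ) (by
        rw [mem_filter, mem_powerset]
        exact ⟨insert_subset hγ hΛ.1, hd⟩)
      rw [card_insert_of_notMem hg] at h2
      omega
    unfold Dis at h1
    push Not at h1
    obtain ⟨e, he, h0, z, hz, hz0⟩ := h1
    rw [sum_insert hg] at h0
    rcases he γ with h | h | h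
    · exfalso
      rw [h] at h0
      have h2 := hΛ.2 e he (by simpa using h0)
      rcases mem_insert.1 hz with h3 | h3
      · exact hz0 (h3 ▸ h)
      · exact hz0 (h2 z h3)
    · refine ⟨fun z => - e z, fun z => ?_, ?_⟩
      · rcases he z with h' | h' | h'
        · left; simp [h']
        · right; right; simp [h']
        · right; left; simp [h']
      · rw [h, DD_univ] at h0
        have h3 : ∑ z ∈ Λ, ((-e z : ℤ) : ZMod N) * z = - ∑ z ∈ Λ, (e z : ZMod N) * z := by
          rw [← sum_neg_distrib]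
          exact sum_congr rfl fun z _ => by push_cast; ring
        rw [h3]
        push_cast at h0
        rw [one_mul] at h0
        exact eq_neg_of_add_eq_zero_left h0
    · refine ⟨e, he, ?_⟩
      rw [h, DD_univ] at h0
      push_cast at h0
      have h4 : -γ + ∑ z ∈ Λ, (e z : ZMod N) * z = 0 := by
        rw [← h0]; ring
      exact (neg_add_eq_zero.1 h4)

end Pool.Agent.U33.SB
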