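import Pool.Agent.U33.SB.Chang

/-!
# Bohr sets in `2A - 2A` for dense subsets of Fourier-uniform sets
-/

set_option autoImplicit false

open scoped Classical

namespace Pool.Agent.U33.SB

open Finset ComplexConjugate
open Pool.Agent.N142.CD Pool.Agent.N142.CD.LCH

variable {N : ℕ} [NeZero N]

/-- the distance of `y / N` to the nearest integer -/
noncomputable def nn (y : ZMod N) : ℝ :=
  |((y.val : ℝ) / (N : ℝ)) - ((round ((y.val : ℝ) / (N : ℝ)) : ℤ) : ℝ)|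

theorem nn_eq (y : ZMod N) : nn y = ‖(ZMod.toAddCircle y : UnitAddCircle)‖ := by
  unfold nn
  rw [ZMod.toAddCircle_apply, UnitAddCircle.norm_eq]

theorem nn_nonneg (y : ZMod N) : 0 ≤ nn y := abs_nonneg _

theorem nn_comb (Λ : Finset (ZMod N)) (e : ZMod N → ℤ) (he : ∀ z, e z = 0 ∨ e z = 1 ∨ e z = -1) (x : ZMod N) :
    nn ((∑ z ∈ Λ, (e z : ZMod N) * z) * x) ≤ ∑ z ∈ Λ, nn (z * x) := by
  rw [nn_eq, sum_mul, map_sum]
  refine (norm_sum_le _ _).trans (sum_le_sum fun z _ => ?_)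
  rw [nn_eq]
  rcases he z with h | h | h
  · rw [h]; simp
  · rw [h]; simp
  · rw [h]
    have : ((-1 : ℤ) : ZMod N) * z * x = -(z * x) := by push_cast; ring
    rw [this, map_neg, norm_neg]

theorem re_nonneg (y : ZMod N) (h : nn y ≤ 1 / 4) : 0 ≤ (ZMod.stdAddChar y : ℂ).re := by
  rw [ZMod.stdAddChar_apply, ZMod.toCircle_apply]
  have e : (2 * (Real.pi : ℂ) * Complex.I * (y.val : ℂ) / (N : ℂ)) =
      ((2 * Real.pi * ((y.val : ℝ) / (N : ℝ)) : ℝ) : ℂ) * Complex.I := by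
    push_cast; ring
  rw [e, Complex.exp_ofReal_mul_I_re]
  obtain ⟨k, hk⟩ : ∃ k : ℤ, k = round ((y.val : ℝ) / (N : ℝ)) := ⟨_, rfl⟩
  have h1 : Real.cos (2 * Real.pi * ((y.val : ℝ) / (N : ℝ))) =
      Real.cos (2 * Real.pi * ((y.val : ℝ) / (N : ℝ)) - k * (2 * Real.pi)) := by
    rw [Real.cos_sub_int_mul_two_pi]
  rw [h1]
  unfold nn at h
  rw [← hk] at h
  have h2 := abs_le.1 h
  have hpi := Real.pi_pos
  apply Real.cos_nonneg_of_neg_pi_div_two_le_of_le <;> nlinarith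

/-- The elements at which the characters of the large spectrum have nonnegative real part. -/
theorem pos_of (A B : Finset (ZMod N)) (hAB : A ⊆ B) (hA : A.Nonempty) (K : ℝ) (hK1 : 1 ≤ K)
    (hK : ∑ t ∈ univ.filter (fun t => (A.card : ℝ) ^ 2 / (4 * N) < ‖FF B t‖), ‖FF B t‖ ≤ K * B.card)
    (x : ZMod N)
    (hx : ∀ r ∈ univ.filter (fun r => ¬ ‖FF A r‖ ^ 2 < (A.card : ℝ) ^ 3 / (2 * K * B.card)), nn (r * x) ≤ 1 / 4) :
    ∃ a₁ ∈ A, ∃ a₂ ∈ A, ∃ a₃ ∈ A, ∃ a₄ ∈ A, x = a₁ + a₂ - a₃ - a₄ := by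
  by_contra hcon
  have h4 := fourth A x hcon
  have ht := tail A B hAB hA K hK1 hK
  have hAc : (0 : ℝ) < A.card := by exact_mod_cast hA.card_pos
  have hBc : (0 : ℝ) < B.card := by exact_mod_cast (hA.mono hAB).card_pos
  have hABc : (A.card : ℝ) ≤ B.card := by exact_mod_cast card_le_card hAB
  rw [← sum_filter_add_sum_filter_not univ
    (fun r => ‖FF A r‖ ^ 2 < (A.card : ℝ) ^ 3 / (2 * K * B.card))] at h4
  have h5 : -(3 / 4 * (A.card : ℝ) ^ 4) ≤
      ∑ r ∈ univ.filter (fun r => ‖FF A r‖ ^ 2 < (A.card : ℝ) ^ 3 / (2 * K * B.card)),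
        ‖FF A r‖ ^ 4 * (ZMod.stdAddChar (r * x) : ℂ).re := by
    rw [neg_le]
    refine le_trans ?_ ht
    rw [← sum_neg_distrib]
    refine sum_le_sum fun r _ => ?_
    have h6 : -1 ≤ (ZMod.stdAddChar (r * x) : ℂ).re := by
      have := (Complex.abs_re_le_norm (ZMod.stdAddChar (r * x) : ℂ))
      rw [psi_norm] at this
      exact (abs_le.1 this).1
    have h7 : (0 : ℝ) ≤ ‖FF A r‖ ^ 4 := by positivity
    nlinarith
  have h6 : (A.card : ℝ) ^ 4 ≤
      ∑ r ∈ univ.filter (fun r => ¬ ‖FF A r‖ ^ 2 < (A.card : ℝ) ^ 3 / (2 * K * B.card)),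
        ‖FF A r‖ ^ 4 * (ZMod.stdAddChar (r * x) : ℂ).re := by
    have h0 : (0 : ZMod N) ∈ univ.filter
        (fun r => ¬ ‖FF A r‖ ^ 2 < (A.card : ℝ) ^ 3 / (2 * K * B.card)) := by
      rw [mem_filter]
      refine ⟨mem_univ _, ?_⟩
      rw [FF_zero, Complex.norm_natCast, not_lt, div_le_iff₀ (by positivity)]
      have : (A.card : ℝ) ≤ 2 * K * B.card := by nlinarith
      calc (A.card : ℝ) ^ 3 = (A.card : ℝ) ^ 2 * A.card := by ring
        _ ≤ _ := mul_le_mul_of_nonneg_left this (by positivity)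
    have h7 : ‖FF A (0 : ZMod N)‖ ^ 4 * (ZMod.stdAddChar ((0 : ZMod N) * x) : ℂ).re = (A.card : ℝ) ^ 4 := by
      rw [FF_zero, Complex.norm_natCast, zero_mul, AddChar.map_zero_eq_one]
      simp
    rw [← h7]
    exact single_le_sum (f := fun r => ‖FF A r‖ ^ 4 * (ZMod.stdAddChar (r * x) : ℂ).re)
      (fun r hr => mul_nonneg (by positivity) (re_nonneg _ (hx r hr))) h0
  have h8 : (0 : ℝ) < (A.card : ℝ) ^ 4 := by positivity
  linarith

/-- (1) the general form -/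
theorem part_one (A B : Finset (ZMod N)) (hAB : A ⊆ B) (hA : A.Nonempty) (K : ℝ) (hK1 : 1 ≤ K)
    (hK : ∑ t ∈ univ.filter (fun t => (A.card : ℝ) ^ 2 / (4 * N) < ‖FF B t‖), ‖FF B t‖ ≤ K * B.card) :
    ∃ Γ : Finset (ZMod N), (Γ.card : ℝ) ≤ 4 * K ^ 2 * ((B.card : ℝ) / A.card) ^ 2 ∧
      ∀ x : ZMod N, (∀ γ ∈ Γ, nn (γ * x) ≤ 1 / 4) →
        ∃ a₁ ∈ A, ∃ a₂ ∈ A, ∃ a₃ ∈ A, ∃ a₄ ∈ A, x = a₁ + a₂ - a₃ - a₄ :=
  ⟨_, spec_card A B hAB hA K hK1 hK, fun x hx => pos_of A B hAB hA K hK1 hK x hx⟩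

theorem uni_hyp (A B : Finset (ZMod N)) (hu : ∀ c : ZMod N, c ≠ 0 → ‖FF B c‖ ≤ (A.card : ℝ) ^ 2 / (4 * N)) :
    ∑ t ∈ univ.filter (fun t => (A.card : ℝ) ^ 2 / (4 * N) < ‖FF B t‖), ‖FF B t‖ ≤ 1 * B.card := by
  have h1 : univ.filter (fun t => (A.card : ℝ) ^ 2 / (4 * N) < ‖FF B t‖) ⊆ {0} := by
    intro t ht
    rw [mem_filter] at ht
    rw [mem_singleton]
    by_contra h
    exact absurd (hu t h) (not_le.2 ht.2)
  refine (sum_le_sum_of_subset_of_nonneg h1 fun _ _ _ => norm_nonneg _).trans ?_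
  rw [sum_singleton, FF_zero, Complex.norm_natCast, one_mul]

/-- (2) the form with few frequencies for uniform sets -/
theorem part_two (A B : Finset (ZMod N)) (hAB : A ⊆ B) (hA : A.Nonempty)
    (hu : ∀ c : ZMod N, c ≠ 0 → ‖FF B c‖ ≤ (A.card : ℝ) ^ 2 / (4 * N)) (D : ℝ) (hD : D = (B.card : ℝ) / A.card)
    (hx : 4 * Real.sqrt D * Real.log (2 * D) ≤ Real.log ((N : ℝ) / A.card)) :
    ∃ Γ : Finset (ZMod N), (Γ.card : ℝ) ≤ 4 * D * Real.log (2 * D) ∧
      ∀ x : ZMod N, (∀ γ ∈ Γ, nn (γ * x) ≤ 1 / (16 * D * Real.log (2 * D))) →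
        ∃ a₁ ∈ A, ∃ a₂ ∈ A, ∃ a₃ ∈ A, ∃ a₄ ∈ A, x = a₁ + a₂ - a₃ - a₄ := by
  have hNpos : (0 : ℝ) < N := by exact_mod_cast Nat.pos_of_ne_zero (NeZero.ne N)
  have hAc : (0 : ℝ) < A.card := by exact_mod_cast hA.card_pos
  have hBc : (0 : ℝ) < B.card := by exact_mod_cast (hA.mono hAB).card_pos
  have hABc : (A.card : ℝ) ≤ B.card := by exact_mod_cast card_le_card hAB
  have hD1 : 1 ≤ D := by rw [hD, le_div_iff₀ hAc]; linarith
  have hD0 : 0 < D := by linarith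
  have hlog2 := Real.log_two_gt_d9
  have hL : Real.log 2 ≤ Real.log (2 * D) := Real.log_le_log (by norm_num) (by linarith)
  have hL0 : 0 < Real.log (2 * D) := by linarith
  obtain ⟨Λ, h1, h2, h3⟩ := cover (univ.filter (fun r : ZMod N => ¬ ‖FF A r‖ ^ 2 < (A.card : ℝ) ^ 3 / (2 * 1 * B.card)))
  obtain ⟨ρ, hρd⟩ : ∃ ρ : ℝ, ρ = Real.sqrt (1 / (2 * D)) := ⟨_, rfl⟩
  have hρ : 0 < ρ := by rw [hρd]; exact Real.sqrt_pos.2 (by positivity)
  have hρ2 : ρ ^ 2 = 1 / (2 * D) := by rw [hρd]; exact Real.sq_sqrt (by positivity)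
  have hρ1 : ρ ≤ Real.sqrt D⁻¹ := by
    rw [hρd]; apply Real.sqrt_le_sqrt; rw [one_div]; exact inv_anti₀ hD0 (by linarith)
  have hρsmall : ρ ≤ 71 / 100 := by
    have : ρ ^ 2 ≤ (71 / 100) ^ 2 := by
      rw [hρ2, div_le_iff₀ (by positivity)]; nlinarith
    exact le_of_sq_le_sq this (by norm_num)
  have hρD : ρ * (4 * D * Real.log (2 * D)) ≤ 71 / 25 * (Real.sqrt D * Real.log (2 * D)) := by
    have h5 : ρ * D ≤ 71 / 100 * Real.sqrt D := by
      have h6 : (ρ * D) ^ 2 ≤ (71 / 100 * Real.sqrt D) ^ 2 := by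
        rw [mul_pow, mul_pow, hρ2, Real.sq_sqrt hD0.le]
        have : 1 / (2 * D) * D ^ 2 = D / 2 := by field_simp
        rw [this]; nlinarith
      exact le_of_sq_le_sq h6 (by positivity)
    nlinarith
  have hSp : ∀ z ∈ Λ, ρ * A.card ≤ ‖FF A z‖ := by
    intro z hz
    have h5 := h1 hz
    rw [mem_filter] at h5
    have h6 := not_lt.1 h5.2
    have h7 : (ρ * A.card) ^ 2 ≤ ‖FF A z‖ ^ 2 := by
      refine le_trans (le_of_eq ?_) h6
      rw [mul_pow, hρ2, hD]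
      field_simp
    exact le_of_sq_le_sq h7 (norm_nonneg _)
  have hcard : (Λ.card : ℝ) ≤ 4 * D * Real.log (2 * D) := by
    by_contra hcon
    push Not at hcon
    obtain ⟨n, hn⟩ : ∃ n : ℕ, n = ⌊4 * D * Real.log (2 * D)⌋₊ := ⟨_, rfl⟩
    have hn1 : (n : ℝ) ≤ 4 * D * Real.log (2 * D) := by rw [hn]; exact Nat.floor_le (by positivity)
    have hn2 : 4 * D * Real.log (2 * D) < n + 1 := by rw [hn]; exact Nat.lt_floor_add_one _
    have hn3 : n + 1 ≤ Λ.card := by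
      have : (n : ℝ) < Λ.card := lt_of_le_of_lt hn1 hcon
      exact_mod_cast this
    obtain ⟨Λ', h5, h6⟩ := exists_subset_card_eq hn3
    have hm : Real.exp (ρ * Λ'.card) * ((A.card : ℝ) ^ 2 / (4 * N)) ≤ B.card := by
      have h7 : ρ * Λ'.card ≤ Real.log ((N : ℝ) / A.card) := by
        rw [h6]; push_cast
        have h8 : ρ * (n + 1) ≤ ρ * (4 * D * Real.log (2 * D)) + 71 / 100 := by nlinarith
        have h9 : 1 ≤ Real.sqrt D := by rw [Real.one_le_sqrt]; exact hD1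
        have h10 : Real.log 2 ≤ Real.sqrt D * Real.log (2 * D) := by nlinarith
        linarith
      have h8 : Real.exp (ρ * Λ'.card) ≤ (N : ℝ) / A.card := by
        rw [← Real.exp_log (show (0 : ℝ) < (N : ℝ) / A.card by positivity)]
        exact Real.exp_le_exp.2 h7
      calc Real.exp (ρ * Λ'.card) * ((A.card : ℝ) ^ 2 / (4 * N)) ≤
          ((N : ℝ) / A.card) * ((A.card : ℝ) ^ 2 / (4 * N)) := mul_le_mul_of_nonneg_right h8 (by positivity)
        _ = A.card / 4 := by field_simp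
        _ ≤ B.card := by linarith
    have h7 := chang_card A B Λ' hAB hA ρ _ hρ (by positivity) hu (fun z hz => hSp z (h5 hz)) (Dis_sub h2 h5) hm
    have h8 : Real.exp (ρ ^ 2 * Λ'.card / 2) ≤ 2 * D := by
      rw [hD, mul_div_assoc', le_div_iff₀ hAc]; exact h7
    have h9 : ρ ^ 2 * Λ'.card / 2 ≤ Real.log (2 * D) := by
      rw [Real.le_log_iff_exp_le (by positivity)]; exact h8
    rw [hρ2, h6] at h9
    push_cast at h9
    have h10 : 1 / (2 * D) * ((n : ℝ) + 1) / 2 = ((n : ℝ) + 1) / (4 * D) := by field_simp; ring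
    rw [h10, div_le_iff₀ (by positivity)] at h9
    linarith
  refine ⟨Λ, hcard, fun x hxx => ?_⟩
  refine pos_of A B hAB hA 1 le_rfl (uni_hyp A B hu) x fun r hr => ?_
  obtain ⟨e, he, hre⟩ := h3 r hr
  rw [hre]
  refine (nn_comb Λ e he x).trans ?_
  refine (sum_le_sum fun z hz => hxx z hz).trans ?_
  rw [sum_const, nsmul_eq_mul, mul_one_div, div_le_iff₀ (by positivity)]
  linarith

/-- Sets with many affine symmetries are uniform (prime modulus). -/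
theorem affine_uniform (hp : N.Prime) (B H : Finset (ZMod N)) (hH : ∀ h ∈ H, ∃ t : ZMod N, ∀ b : ZMod N, b ∈ B ↔ h * b + t ∈ B)
    (m : ℝ) (hm : 16 * (N : ℝ) ^ 3 * B.card ≤ H.card * m ^ 4) (hm0 : 0 ≤ m) (r : ZMod N) (hr : r ≠ 0)
    (h0 : ∀ h ∈ H, h ≠ 0) :
    ‖FF B r‖ ≤ m ^ 2 / (4 * N) := by
  have : Fact N.Prime := ⟨hp⟩
  have hNpos : (0 : ℝ) < N := by exact_mod_cast hp.pos
  have h1 : ∀ h ∈ H, ‖FF B (r * h)‖ = ‖FF B r‖ := by
    intro h hh
    obtain ⟨t, ht⟩ := hH h hh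
    have h2 : FF B r = ZMod.stdAddChar (r * t) * FF B (r * h) := by
      unfold FF
      rw [mul_sum]
      symm
      refine sum_bij (fun b _ => h * b + t) (fun b hb => (ht b).1 hb) ?_ ?_ ?_
      · intro a _ b _ hab
        exact mul_left_cancel₀ (h0 h hh) (add_right_cancel hab)
      · intro b hb
        refine ⟨h⁻¹ * (b - t), ?_, ?_⟩
        · rw [ht, mul_inv_cancel_left₀ (h0 h hh), sub_add_cancel]; exact hb
        · rw [mul_inv_cancel_left₀ (h0 h hh), sub_add_cancel]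
      · intro b _
        rw [← AddChar.map_add_eq_mul]
        congr 1; ring
    rw [h2, norm_mul, psi_norm, one_mul]
  have h3 : (H.card : ℝ) * ‖FF B r‖ ^ 2 ≤ (N : ℝ) * B.card := by
    rw [← parseval B]
    have h4 : ∑ s ∈ H.image (fun h => r * h), ‖FF B s‖ ^ 2 = H.card * ‖FF B r‖ ^ 2 := by
      rw [sum_image (fun a _ b _ hab => mul_left_cancel₀ hr hab)]
      rw [sum_congr rfl fun h hh => by rw [h1 h hh], sum_const, nsmul_eq_mul]
    rw [← h4]
    exact sum_le_sum_of_subset_of_nonneg (subset_univ _) fun _ _ _ => by positivity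
  rcases Nat.eq_zero_or_pos H.card with hc | hc
  · rw [hc] at hm
    have hB : (B.card : ℝ) ≤ 0 := by
      have : 0 ≤ (N : ℝ) ^ 3 := by positivity
      by_contra hcon
      push Not at hcon
      have : 0 < 16 * (N : ℝ) ^ 3 * B.card := by positivity
      push_cast at hm
      linarith
    exact (FF_norm_le B r).trans (hB.trans (by positivity))
  · have hHc : (0 : ℝ) < H.card := by exact_mod_cast hc
    have h5 : ‖FF B r‖ ^ 2 ≤ (m ^ 2 / (4 * N)) ^ 2 := by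
      have h6 : (H.card : ℝ) * ‖FF B r‖ ^ 2 ≤ H.card * (m ^ 2 / (4 * N)) ^ 2 := by
        refine h3.trans ?_
        rw [div_pow, mul_div_assoc', le_div_iff₀ (by positivity)]
        nlinarith
      exact le_of_mul_le_mul_left h6 hHc
    exact le_of_sq_le_sq h5 (by positivity)

end Pool.Agent.U33.SB
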