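import Mathlib

/-!
# Fourier sums over `ℤ/N` of a set `A` inside a set `B`: the inequality of the large sieve relative to `B`
-/

set_option autoImplicit false

namespace Pool.Agent.U33.SB

open Finset ComplexConjugate

variable {N : ℕ} [NeZero N]

/-- The Fourier sum `∑_{a ∈ A} e(r a / N)`. -/
noncomputable def FF (A : Finset (ZMod N)) (r : ZMod N) : ℂ := ∑ a ∈ A, ZMod.stdAddChar (r * a)

theorem psi_norm (x : ZMod N) : ‖(ZMod.stdAddChar x : ℂ)‖ = 1 := by
  have : (ZMod.stdAddChar x : ℂ) = (ZMod.toCircle x : ℂ) := rfl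
  rw [this]; exact Circle.norm_coe _

theorem psi_conj (x : ZMod N) : conj (ZMod.stdAddChar x : ℂ) = ZMod.stdAddChar (-x) := by
  rw [AddChar.map_neg_eq_inv, Complex.inv_def]
  have h := psi_norm x
  rw [Complex.normSq_eq_norm_sq, h]
  simp

theorem ortho (x : ZMod N) : ∑ r : ZMod N, (ZMod.stdAddChar (r * x) : ℂ) = if x = 0 then (N : ℂ) else 0 := by
  have := AddChar.sum_mulShift x (ZMod.isPrimitive_stdAddChar N)
  rw [this]
  split_ifs <;> simp [ZMod.card]

theorem FF_zero (A : Finset (ZMod N)) : FF A 0 = (A.card : ℂ) := by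
  unfold FF; simp

theorem FF_norm_le (A : Finset (ZMod N)) (r : ZMod N) : ‖FF A r‖ ≤ A.card := by
  unfold FF
  refine (norm_sum_le _ _).trans ?_
  simp [psi_norm]

theorem parseval (A : Finset (ZMod N)) : ∑ r : ZMod N, ‖FF A r‖ ^ 2 = (N : ℝ) * A.card := by
  have h : ∑ r : ZMod N, (FF A r * conj (FF A r)) = (N : ℂ) * A.card := by
    have h1 : ∀ r : ZMod N, FF A r * conj (FF A r) = ∑ a ∈ A, ∑ b ∈ A, (ZMod.stdAddChar (r * (a - b)) : ℂ) := by
      intro r
      unfold FF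
      rw [map_sum, sum_mul_sum]
      refine sum_congr rfl fun a _ => sum_congr rfl fun b _ => ?_
      rw [psi_conj, ← AddChar.map_add_eq_mul]
      congr 1; ring
    simp_rw [h1]
    rw [sum_comm]
    have h2 : ∀ a ∈ A, ∑ r : ZMod N, ∑ b ∈ A, (ZMod.stdAddChar (r * (a - b)) : ℂ) = N := by
      intro a ha
      rw [sum_comm]
      simp_rw [ortho, sub_eq_zero]
      rw [sum_ite_eq]
      simp [ha]
    rw [sum_congr rfl h2]
    simp; ring
  have h3 : ∀ r : ZMod N, FF A r * conj (FF A r) = ((‖FF A r‖ ^ 2 : ℝ) : ℂ) := by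
    intro r; rw [Complex.mul_conj, Complex.normSq_eq_norm_sq]
  simp_rw [h3] at h
  rw [← Complex.ofReal_sum] at h
  exact_mod_cast h

/-- the number of representations of `x` as `a + b - c - d`, times `N` -/
theorem fourth (A : Finset (ZMod N)) (x : ZMod N)
    (hx : ¬ ∃ a₁ ∈ A, ∃ a₂ ∈ A, ∃ a₃ ∈ A, ∃ a₄ ∈ A, x = a₁ + a₂ - a₃ - a₄) :
    ∑ r : ZMod N, ‖FF A r‖ ^ 4 * (ZMod.stdAddChar (r * x) : ℂ).re = 0 := by
  have h : ∑ r : ZMod N, (FF A r * conj (FF A r)) * (FF A r * conj (FF A r)) * conj (ZMod.stdAddChar (r * x) : ℂ) = 0 := by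
    have h1 : ∀ r : ZMod N, (FF A r * conj (FF A r)) * (FF A r * conj (FF A r)) * conj (ZMod.stdAddChar (r * x) : ℂ) =
        ∑ a ∈ A, ∑ b ∈ A, ∑ c ∈ A, ∑ d ∈ A, (ZMod.stdAddChar (r * (a + b - c - d - x)) : ℂ) := by
      intro r
      unfold FF
      rw [map_sum]
      have e : (∑ a ∈ A, (ZMod.stdAddChar (r * a) : ℂ)) * (∑ a ∈ A, conj (ZMod.stdAddChar (r * a) : ℂ)) *
          ((∑ a ∈ A, (ZMod.stdAddChar (r * a) : ℂ)) * (∑ a ∈ A, conj (ZMod.stdAddChar (r * a) : ℂ))) =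
          (∑ a ∈ A, (ZMod.stdAddChar (r * a) : ℂ)) * ((∑ b ∈ A, (ZMod.stdAddChar (r * b) : ℂ)) *
            ((∑ c ∈ A, conj (ZMod.stdAddChar (r * c) : ℂ)) * (∑ d ∈ A, conj (ZMod.stdAddChar (r * d) : ℂ)))) := by
        ring
      rw [e]
      simp_rw [sum_mul, mul_sum, sum_mul]
      refine sum_congr rfl fun a _ => sum_congr rfl fun b _ => sum_congr rfl fun c _ => sum_congr rfl fun d _ => ?_
      rw [psi_conj, psi_conj, psi_conj, ← AddChar.map_add_eq_mul, ← AddChar.map_add_eq_mul, ← AddChar.map_add_eq_mul,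
        ← AddChar.map_add_eq_mul]
      congr 1; ring
    simp_rw [h1]
    rw [sum_comm]
    refine sum_eq_zero fun a ha => ?_
    rw [sum_comm]
    refine sum_eq_zero fun b hb => ?_
    rw [sum_comm]
    refine sum_eq_zero fun c hc => ?_
    rw [sum_comm]
    refine sum_eq_zero fun d hd => ?_
    rw [ortho, if_neg]
    intro h0
    exact hx ⟨a, ha, b, hb, c, hc, d, hd, by rw [sub_eq_zero] at h0; exact h0.symm⟩
  have h3 : ∀ r : ZMod N, (FF A r * conj (FF A r)) * (FF A r * conj (FF A r)) * conj (ZMod.stdAddChar (r * x) : ℂ) =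
      ((‖FF A r‖ ^ 4 : ℝ) : ℂ) * conj (ZMod.stdAddChar (r * x) : ℂ) := by
    intro r; rw [Complex.mul_conj, Complex.normSq_eq_norm_sq]; push_cast; ring
  simp_rw [h3] at h
  have h4 := congrArg Complex.re h
  rw [Complex.re_sum] at h4
  simp only [Complex.re_ofReal_mul, Complex.conj_re, Complex.zero_re] at h4
  exact h4

end Pool.Agent.U33.SB
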