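import Pool.Agent.U33.SB.Fou

/-!
# The large sieve relative to `B` and the large spectrum of a dense subset
-/

set_option autoImplicit false

namespace Pool.Agent.U33.SB

open Finset ComplexConjugate

variable {N : ℕ} [NeZero N]

/-- The large sieve inequality for the points of `B`. -/
theorem sieve (B : Finset (ZMod N)) (τ K : ℝ) (hτ : 0 ≤ τ)
    (hK : ∑ t ∈ univ.filter (fun t => τ < ‖FF B t‖), ‖FF B t‖ ≤ K * B.card) (w : ZMod N → ℂ) :
    ∑ b ∈ B, ‖∑ r, w r * (ZMod.stdAddChar (r * b) : ℂ)‖ ^ 2 ≤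
      K * B.card * (∑ r, ‖w r‖ ^ 2) + τ * (∑ r, ‖w r‖) ^ 2 := by
  have h1 : ((∑ b ∈ B, ‖∑ r, w r * (ZMod.stdAddChar (r * b) : ℂ)‖ ^ 2 : ℝ) : ℂ) =
      ∑ r, ∑ s, w r * conj (w s) * FF B (r - s) := by
    rw [Complex.ofReal_sum]
    have h2 : ∀ b ∈ B, ((‖∑ r, w r * (ZMod.stdAddChar (r * b) : ℂ)‖ ^ 2 : ℝ) : ℂ) =
        ∑ r, ∑ s, w r * conj (w s) * (ZMod.stdAddChar ((r - s) * b) : ℂ) := by
      intro b _
      rw [← Complex.normSq_eq_norm_sq, ← Complex.mul_conj, map_sum, sum_mul_sum]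
      refine sum_congr rfl fun r _ => sum_congr rfl fun s _ => ?_
      rw [map_mul (starRingEnd ℂ), psi_conj]
      have : (ZMod.stdAddChar ((r - s) * b) : ℂ) = ZMod.stdAddChar (r * b) * ZMod.stdAddChar (-(s * b)) := by
        rw [← AddChar.map_add_eq_mul]; congr 1; ring
      rw [this]; ring
    rw [sum_congr rfl h2, sum_comm]
    refine sum_congr rfl fun r _ => ?_
    rw [sum_comm]
    refine sum_congr rfl fun s _ => ?_
    unfold FF
    rw [mul_sum]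
  have h3 : ∑ b ∈ B, ‖∑ r, w r * (ZMod.stdAddChar (r * b) : ℂ)‖ ^ 2 ≤
      ∑ r, ∑ s, ‖w r‖ * ‖w s‖ * ‖FF B (r - s)‖ := by
    have h4 : ∑ b ∈ B, ‖∑ r, w r * (ZMod.stdAddChar (r * b) : ℂ)‖ ^ 2 =
        ‖((∑ b ∈ B, ‖∑ r, w r * (ZMod.stdAddChar (r * b) : ℂ)‖ ^ 2 : ℝ) : ℂ)‖ := by
      rw [Complex.norm_real, Real.norm_of_nonneg (sum_nonneg fun b _ => by positivity)]
    rw [h4, h1]
    refine (norm_sum_le _ _).trans (sum_le_sum fun r _ => (norm_sum_le _ _).trans (sum_le_sum fun s _ => ?_))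
    rw [norm_mul, norm_mul, RCLike.norm_conj]
  refine h3.trans ?_
  have h5 : ∑ r, ∑ s, ‖w r‖ * ‖w s‖ * ‖FF B (r - s)‖ = ∑ t, ‖FF B t‖ * ∑ s, ‖w (t + s)‖ * ‖w s‖ := by
    rw [sum_comm]
    have h6 : ∀ s : ZMod N, ∑ r, ‖w r‖ * ‖w s‖ * ‖FF B (r - s)‖ = ∑ t, ‖w (t + s)‖ * ‖w s‖ * ‖FF B t‖ := by
      intro s
      rw [← Equiv.sum_comp (Equiv.addRight s)]
      refine sum_congr rfl fun t _ => ?_
      simp
    simp_rw [h6]
    rw [sum_comm]
    refine sum_congr rfl fun t _ => ?_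
    rw [mul_sum]
    refine sum_congr rfl fun s _ => ?_
    ring
  rw [h5, ← sum_filter_add_sum_filter_not univ (fun t => τ < ‖FF B t‖)]
  have hshift : ∀ t : ZMod N, ∑ s, ‖w (t + s)‖ ^ 2 = ∑ s, ‖w s‖ ^ 2 := fun t =>
    Equiv.sum_comp (Equiv.addLeft t) (fun s => ‖w s‖ ^ 2)
  have hcs : ∀ t : ZMod N, ∑ s, ‖w (t + s)‖ * ‖w s‖ ≤ ∑ s, ‖w s‖ ^ 2 := by
    intro t
    have h7 : ∑ s, ‖w (t + s)‖ * ‖w s‖ ≤ ∑ s, (‖w (t + s)‖ ^ 2 + ‖w s‖ ^ 2) / 2 :=
      sum_le_sum fun s _ => by nlinarith [sq_nonneg (‖w (t + s)‖ - ‖w s‖)]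
    rw [← sum_div, sum_add_distrib, hshift t] at h7
    linarith
  have hw0 : 0 ≤ ∑ s, ‖w s‖ ^ 2 := sum_nonneg fun s _ => by positivity
  apply add_le_add
  · calc ∑ t ∈ univ.filter (fun t => τ < ‖FF B t‖), ‖FF B t‖ * ∑ s, ‖w (t + s)‖ * ‖w s‖
        ≤ ∑ t ∈ univ.filter (fun t => τ < ‖FF B t‖), ‖FF B t‖ * ∑ s, ‖w s‖ ^ 2 :=
          sum_le_sum fun t _ => mul_le_mul_of_nonneg_left (hcs t) (norm_nonneg _)
      _ = (∑ t ∈ univ.filter (fun t => τ < ‖FF B t‖), ‖FF B t‖) * ∑ s, ‖w s‖ ^ 2 := by rw [sum_mul]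
      _ ≤ K * B.card * ∑ s, ‖w s‖ ^ 2 := mul_le_mul_of_nonneg_right hK hw0
  · have h8 : ∑ t, ∑ s, ‖w (t + s)‖ * ‖w s‖ = (∑ s, ‖w s‖) ^ 2 := by
      rw [sum_comm]
      have : ∀ s : ZMod N, ∑ t, ‖w (t + s)‖ * ‖w s‖ = (∑ t, ‖w t‖) * ‖w s‖ := by
        intro s
        rw [← sum_mul]
        congr 1
        exact Equiv.sum_comp (Equiv.addRight s) (fun t => ‖w t‖)
      simp_rw [this]
      rw [← mul_sum]; ring
    calc ∑ t ∈ univ.filter (fun t => ¬ τ < ‖FF B t‖), ‖FF B t‖ * ∑ s, ‖w (t + s)‖ * ‖w s‖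
        ≤ ∑ t ∈ univ.filter (fun t => ¬ τ < ‖FF B t‖), τ * ∑ s, ‖w (t + s)‖ * ‖w s‖ :=
          sum_le_sum fun t ht => mul_le_mul_of_nonneg_right (not_lt.mp (mem_filter.mp ht).2)
            (sum_nonneg fun s _ => by positivity)
      _ ≤ ∑ t, τ * ∑ s, ‖w (t + s)‖ * ‖w s‖ :=
          sum_le_sum_of_subset_of_nonneg (filter_subset _ _) fun t _ _ =>
            mul_nonneg hτ (sum_nonneg fun s _ => by positivity)
      _ = τ * (∑ r, ‖w r‖) ^ 2 := by rw [← mul_sum, h8]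

/-- The dual form, for a subset `A` of `B`. -/
theorem dual (A B : Finset (ZMod N)) (hAB : A ⊆ B) (τ K : ℝ) (hτ : 0 ≤ τ)
    (hK : ∑ t ∈ univ.filter (fun t => τ < ‖FF B t‖), ‖FF B t‖ ≤ K * B.card) (w : ZMod N → ℂ) :
    ‖∑ r, w r * FF A r‖ ^ 2 ≤
      A.card * (K * B.card * (∑ r, ‖w r‖ ^ 2) + τ * (∑ r, ‖w r‖) ^ 2) := by
  have h1 : ∑ r, w r * FF A r = ∑ a ∈ A, ∑ r, w r * (ZMod.stdAddChar (r * a) : ℂ) := by
    unfold FF
    simp_rw [mul_sum]
    rw [sum_comm]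
  have h2 : ‖∑ r, w r * FF A r‖ ≤ ∑ a ∈ A, ‖∑ r, w r * (ZMod.stdAddChar (r * a) : ℂ)‖ := by
    rw [h1]; exact norm_sum_le _ _
  have h3 : (∑ a ∈ A, ‖∑ r, w r * (ZMod.stdAddChar (r * a) : ℂ)‖) ^ 2 ≤
      A.card * ∑ a ∈ A, ‖∑ r, w r * (ZMod.stdAddChar (r * a) : ℂ)‖ ^ 2 := sq_sum_le_card_mul_sum_sq
  have h4 : ∑ a ∈ A, ‖∑ r, w r * (ZMod.stdAddChar (r * a) : ℂ)‖ ^ 2 ≤
      ∑ a ∈ B, ‖∑ r, w r * (ZMod.stdAddChar (r * a) : ℂ)‖ ^ 2 :=
    sum_le_sum_of_subset_of_nonneg hAB fun _ _ _ => by positivity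
  calc ‖∑ r, w r * FF A r‖ ^ 2 ≤ (∑ a ∈ A, ‖∑ r, w r * (ZMod.stdAddChar (r * a) : ℂ)‖) ^ 2 :=
        pow_le_pow_left₀ (norm_nonneg _) h2 2
    _ ≤ A.card * ∑ a ∈ A, ‖∑ r, w r * (ZMod.stdAddChar (r * a) : ℂ)‖ ^ 2 := h3
    _ ≤ _ := mul_le_mul_of_nonneg_left (h4.trans (sieve B τ K hτ hK w)) (Nat.cast_nonneg _)

/-- The part of the fourth moment outside of the large spectrum. -/
theorem tail (A B : Finset (ZMod N)) (hAB : A ⊆ B) (hA : A.Nonempty) (K : ℝ) (hK1 : 1 ≤ K)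
    (hK : ∑ t ∈ univ.filter (fun t => (A.card : ℝ) ^ 2 / (4 * N) < ‖FF B t‖), ‖FF B t‖ ≤ K * B.card) :
    ∑ r ∈ univ.filter (fun r => ‖FF A r‖ ^ 2 < (A.card : ℝ) ^ 3 / (2 * K * B.card)), ‖FF A r‖ ^ 4 ≤
      3 / 4 * (A.card : ℝ) ^ 4 := by
  have hNpos : (0 : ℝ) < N := by exact_mod_cast Nat.pos_of_ne_zero (NeZero.ne N)
  have hAc : (0 : ℝ) < A.card := by exact_mod_cast hA.card_pos
  have hBc : (0 : ℝ) < B.card := by exact_mod_cast (hA.mono hAB).card_pos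
  set S := univ.filter (fun r => ‖FF A r‖ ^ 2 < (A.card : ℝ) ^ 3 / (2 * K * B.card)) with hS
  set T := ∑ r ∈ S, ‖FF A r‖ ^ 4 with hT
  have hT0 : 0 ≤ T := sum_nonneg fun r _ => by positivity
  have hd := dual A B hAB ((A.card : ℝ) ^ 2 / (4 * N)) K (by positivity) hK
    (fun r => if r ∈ S then ((‖FF A r‖ ^ 2 : ℝ) : ℂ) * conj (FF A r) else 0)
  have e1 : ∑ r, (if r ∈ S then ((‖FF A r‖ ^ 2 : ℝ) : ℂ) * conj (FF A r) else 0) * FF A r = (T : ℂ) := by
    rw [hT, Complex.ofReal_sum]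
    rw [← sum_filter_add_sum_filter_not univ (fun r => r ∈ S)]
    rw [sum_eq_zero (s := univ.filter (fun r => ¬ r ∈ S)) (fun r hr => by
      rw [if_neg (mem_filter.mp hr).2, zero_mul]), add_zero]
    have : univ.filter (fun r => r ∈ S) = S := by ext r; simp
    rw [this]
    refine sum_congr rfl fun r hr => ?_
    rw [if_pos hr, mul_assoc, mul_comm (conj (FF A r)), Complex.mul_conj, Complex.normSq_eq_norm_sq]
    push_cast; ring
  have e2 : ∑ r, ‖(if r ∈ S then ((‖FF A r‖ ^ 2 : ℝ) : ℂ) * conj (FF A r) else 0 : ℂ)‖ ^ 2 ≤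
      (A.card : ℝ) ^ 3 / (2 * K * B.card) * T := by
    rw [← sum_filter_add_sum_filter_not univ (fun r => r ∈ S)]
    rw [sum_eq_zero (s := univ.filter (fun r => ¬ r ∈ S)) (fun r hr => by
      rw [if_neg (mem_filter.mp hr).2]; simp), add_zero]
    have : univ.filter (fun r => r ∈ S) = S := by ext r; simp
    rw [this, hT, mul_sum]
    refine sum_le_sum fun r hr => ?_
    rw [if_pos hr, norm_mul, RCLike.norm_conj, Complex.norm_real, Real.norm_of_nonneg (by positivity)]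
    have h1 : ‖FF A r‖ ^ 2 < (A.card : ℝ) ^ 3 / (2 * K * B.card) := (mem_filter.mp hr).2
    have h2 : (‖FF A r‖ ^ 2 * ‖FF A r‖) ^ 2 = ‖FF A r‖ ^ 2 * ‖FF A r‖ ^ 4 := by ring
    rw [h2]
    exact mul_le_mul_of_nonneg_right h1.le (by positivity)
  have e3 : (∑ r, ‖(if r ∈ S then ((‖FF A r‖ ^ 2 : ℝ) : ℂ) * conj (FF A r) else 0 : ℂ)‖) ^ 2 ≤
      (N : ℝ) * A.card * T := by
    rw [← sum_filter_add_sum_filter_not univ (fun r => r ∈ S)]
    rw [sum_eq_zero (s := univ.filter (fun r => ¬ r ∈ S)) (fun r hr => by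
      rw [if_neg (mem_filter.mp hr).2]; simp), add_zero]
    have : univ.filter (fun r => r ∈ S) = S := by ext r; simp
    rw [this]
    have h1 : ∑ r ∈ S, ‖(if r ∈ S then ((‖FF A r‖ ^ 2 : ℝ) : ℂ) * conj (FF A r) else 0 : ℂ)‖ =
        ∑ r ∈ S, ‖FF A r‖ * ‖FF A r‖ ^ 2 := by
      refine sum_congr rfl fun r hr => ?_
      rw [if_pos hr, norm_mul, RCLike.norm_conj, Complex.norm_real, Real.norm_of_nonneg (by positivity)]
      ring
    rw [h1]
    refine (sum_mul_sq_le_sq_mul_sq S _ _).trans ?_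
    have h2 : ∑ r ∈ S, ‖FF A r‖ ^ 2 ≤ (N : ℝ) * A.card := by
      rw [← parseval A]
      exact sum_le_sum_of_subset_of_nonneg (subset_univ _) fun _ _ _ => by positivity
    have h3 : ∑ r ∈ S, (‖FF A r‖ ^ 2) ^ 2 = T := by
      rw [hT]; exact sum_congr rfl fun r _ => by ring
    rw [h3]
    exact mul_le_mul_of_nonneg_right h2 hT0
  rw [e1, Complex.norm_real, Real.norm_of_nonneg hT0] at hd
  have h9 : T ^ 2 ≤ A.card * (K * B.card * ((A.card : ℝ) ^ 3 / (2 * K * B.card) * T) +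
      (A.card : ℝ) ^ 2 / (4 * N) * ((N : ℝ) * A.card * T)) := by
    refine hd.trans (mul_le_mul_of_nonneg_left (add_le_add ?_ ?_) hAc.le)
    · exact mul_le_mul_of_nonneg_left e2 (by positivity)
    · exact mul_le_mul_of_nonneg_left e3 (by positivity)
  have h10 : A.card * (K * B.card * ((A.card : ℝ) ^ 3 / (2 * K * B.card) * T) +
      (A.card : ℝ) ^ 2 / (4 * N) * ((N : ℝ) * A.card * T)) = 3 / 4 * (A.card : ℝ) ^ 4 * T := by
    field_simp
    ring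
  rw [h10] at h9
  by_contra hcon
  push Not at hcon
  have h11 : 0 < T := lt_of_le_of_lt (by positivity) hcon
  nlinarith

/-- The size of the large spectrum. -/
theorem spec_card (A B : Finset (ZMod N)) (hAB : A ⊆ B) (hA : A.Nonempty) (K : ℝ) (hK1 : 1 ≤ K)
    (hK : ∑ t ∈ univ.filter (fun t => (A.card : ℝ) ^ 2 / (4 * N) < ‖FF B t‖), ‖FF B t‖ ≤ K * B.card) :
    ((univ.filter (fun r => ¬ ‖FF A r‖ ^ 2 < (A.card : ℝ) ^ 3 / (2 * K * B.card))).card : ℝ) ≤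
      4 * K ^ 2 * ((B.card : ℝ) / A.card) ^ 2 := by
  have hNpos : (0 : ℝ) < N := by exact_mod_cast Nat.pos_of_ne_zero (NeZero.ne N)
  have hAc : (0 : ℝ) < A.card := by exact_mod_cast hA.card_pos
  have hBc : (0 : ℝ) < B.card := by exact_mod_cast (hA.mono hAB).card_pos
  set S := univ.filter (fun r => ¬ ‖FF A r‖ ^ 2 < (A.card : ℝ) ^ 3 / (2 * K * B.card)) with hS
  set Q := ∑ r ∈ S, ‖FF A r‖ ^ 2 with hQ
  have hQ0 : 0 ≤ Q := sum_nonneg fun r _ => by positivity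
  have hlow : (A.card : ℝ) ^ 3 / (2 * K * B.card) * S.card ≤ Q := by
    rw [hQ, mul_comm, ← nsmul_eq_mul]
    exact card_nsmul_le_sum _ _ _ fun r hr => not_lt.mp (mem_filter.mp hr).2
  have hd := dual A B hAB ((A.card : ℝ) ^ 2 / (4 * N)) K (by positivity) hK
    (fun r => if r ∈ S then conj (FF A r) else 0)
  have e1 : ∑ r, (if r ∈ S then conj (FF A r) else 0) * FF A r = (Q : ℂ) := by
    rw [hQ, Complex.ofReal_sum]
    rw [← sum_filter_add_sum_filter_not univ (fun r => r ∈ S)]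
    rw [sum_eq_zero (s := univ.filter (fun r => ¬ r ∈ S)) (fun r hr => by
      rw [if_neg (mem_filter.mp hr).2, zero_mul]), add_zero]
    have : univ.filter (fun r => r ∈ S) = S := by ext r; simp
    rw [this]
    refine sum_congr rfl fun r hr => ?_
    rw [if_pos hr, mul_comm (conj (FF A r)), Complex.mul_conj, Complex.normSq_eq_norm_sq]
  have e2 : ∑ r, ‖(if r ∈ S then conj (FF A r) else 0 : ℂ)‖ ^ 2 = Q := by
    rw [← sum_filter_add_sum_filter_not univ (fun r => r ∈ S)]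
    rw [sum_eq_zero (s := univ.filter (fun r => ¬ r ∈ S)) (fun r hr => by
      rw [if_neg (mem_filter.mp hr).2]; simp), add_zero]
    have : univ.filter (fun r => r ∈ S) = S := by ext r; simp
    rw [this, hQ]
    refine sum_congr rfl fun r hr => ?_
    rw [if_pos hr, RCLike.norm_conj]
  have e3 : (∑ r, ‖(if r ∈ S then conj (FF A r) else 0 : ℂ)‖) ^ 2 ≤ (S.card : ℝ) * Q := by
    rw [← sum_filter_add_sum_filter_not univ (fun r => r ∈ S)]
    rw [sum_eq_zero (s := univ.filter (fun r => ¬ r ∈ S)) (fun r hr => by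
      rw [if_neg (mem_filter.mp hr).2]; simp), add_zero]
    have : univ.filter (fun r => r ∈ S) = S := by ext r; simp
    rw [this]
    have h1 : ∑ r ∈ S, ‖(if r ∈ S then conj (FF A r) else 0 : ℂ)‖ = ∑ r ∈ S, ‖FF A r‖ :=
      sum_congr rfl fun r hr => by rw [if_pos hr, RCLike.norm_conj]
    rw [h1]
    exact sq_sum_le_card_mul_sum_sq
  rw [e1, e2, Complex.norm_real, Real.norm_of_nonneg hQ0] at hd
  have hd2 : Q ^ 2 ≤ A.card * (K * B.card * Q + (A.card : ℝ) ^ 2 / (4 * N) * ((S.card : ℝ) * Q)) := by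
    refine hd.trans (mul_le_mul_of_nonneg_left (add_le_add le_rfl ?_) hAc.le)
    exact mul_le_mul_of_nonneg_left e3 (by positivity)
  have hS0 : (0 : ℝ) ≤ S.card := Nat.cast_nonneg _
  have hQle : Q ≤ A.card * (K * B.card + (A.card : ℝ) ^ 2 / (4 * N) * S.card) := by
    by_contra hcon
    push Not at hcon
    have h0 : 0 < Q := lt_of_le_of_lt (by positivity) hcon
    have : A.card * (K * B.card * Q + (A.card : ℝ) ^ 2 / (4 * N) * ((S.card : ℝ) * Q)) =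
        (A.card * (K * B.card + (A.card : ℝ) ^ 2 / (4 * N) * S.card)) * Q := by ring
    rw [this] at hd2
    nlinarith
  have hQN : Q ≤ (N : ℝ) * A.card := by
    rw [← parseval A]
    exact sum_le_sum_of_subset_of_nonneg (subset_univ _) fun _ _ _ => by positivity
  rw [div_pow]
  rw [mul_div_assoc', le_div_iff₀ (by positivity)]
  rcases le_or_gt (K * B.card) (N : ℝ) with hcase | hcase
  · have h1 : (A.card : ℝ) ^ 2 / (4 * N) ≤ (A.card : ℝ) ^ 2 / (4 * (K * B.card)) :=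
      div_le_div_of_nonneg_left (by positivity) (by positivity) (by linarith)
    have h2 : (A.card : ℝ) ^ 3 / (2 * K * B.card) * S.card ≤
        A.card * (K * B.card + (A.card : ℝ) ^ 2 / (4 * (K * B.card)) * S.card) := by
      refine (hlow.trans hQle).trans (mul_le_mul_of_nonneg_left (add_le_add le_rfl ?_) hAc.le)
      exact mul_le_mul_of_nonneg_right h1 hS0
    have h3 : (A.card : ℝ) ^ 3 / (2 * K * B.card) * S.card =
        (A.card / (4 * (K * B.card))) * (2 * (S.card * (A.card : ℝ) ^ 2)) := by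
      field_simp; ring
    have h4 : A.card * (K * B.card + (A.card : ℝ) ^ 2 / (4 * (K * B.card)) * S.card) =
        (A.card / (4 * (K * B.card))) * (4 * (K * B.card) ^ 2 + S.card * (A.card : ℝ) ^ 2) := by
      field_simp
    rw [h3, h4] at h2
    have h5 := le_of_mul_le_mul_left h2 (by positivity)
    nlinarith
  · have h2 : (A.card : ℝ) ^ 3 / (2 * K * B.card) * S.card ≤ K * B.card * A.card :=
      (hlow.trans hQN).trans (mul_le_mul_of_nonneg_right hcase.le hAc.le)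
    have h3 : (A.card : ℝ) ^ 3 / (2 * K * B.card) * S.card =
        (A.card / (2 * (K * B.card))) * (S.card * (A.card : ℝ) ^ 2) := by
      field_simp
    have h4 : K * B.card * A.card = (A.card / (2 * (K * B.card))) * (2 * (K * B.card) ^ 2) := by
      field_simp
    rw [h3, h4] at h2
    have h5 := le_of_mul_le_mul_left h2 (by positivity)
    nlinarith [sq_nonneg (K * B.card : ℝ)]

end Pool.Agent.U33.SB
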